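import Pool.Agent.H10x.NL.Cnt4

/-!
# How many NOT gates do small circuits for approximate counting need?

The number of satisfying assignments of a 2-CNF formula with `N` variables: the input consists of the
bits of all `2 N ^ 2 + N + 1` possible clauses with at most two literals. Satisfiability of 2-CNF
formulas is easy, but exact counting is #P-complete.

Consider the problem to tell the formulas with at most `2 ^ A` satisfying assignments from those with at
least `2 ^ (A + g)`. It is a monotone problem (more clauses, fewer satisfying assignments), so there are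
circuits without NOT gates for it. (For the exact number in binary this is different: there Markov's
theorem says that circuits with fewer than `log (N (N - 1) / 2 + 1)` NOT gates do not exist at all.)

* Boolean circuits with `2 log N - C log log N` NOT gates for this problem with `g = ⌊(log N) ^ B⌋` have
  superpolynomial size (for some `A`). For `g = ⌊N ^ δ⌋` and `(2 - ε) log N` NOT gates they have size
  `2 ^ (N ^ δ)`.
* This holds even for circuits that compute `W` bits followed by an arbitrary function of these bits, if
  `2 ^ t (W + 1)` is at most `N ^ 2 / (log N) ^ C` (and `N ^ (2 - ε)`) for `t` NOT gates.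
* Conversely (Markov and Fischer, proved here), if there are circuits of size `s` that do this, then there
  are such circuits with `⌈log (2 N ^ 2 + N + 2)⌉` NOT gates and size polynomial in `s` and `N`. So a
  superpolynomial bound for `O (log log N)` more NOT gates would be one for all circuits.
* In general the number of NOT gates can be replaced by the alternation number: the maximal number of
  steps, in an increasing sequence of formulas, that change what some non-monotone gate sees. It is
  smaller than `2 ^ t` for `t` NOT gates, and at most the number of clauses. Randomised circuits of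
  monotone real gates with arbitrary further gates and alternation number at most `N ^ 2 / (log N) ^ C`
  for this problem have superpolynomial size.

The proof: let `y` be a graph with `n` vertices. The formula has `b` variables for each vertex, and says
that true variables belong to different vertices only if these are adjacent. If `y` has a clique of size
`k`, then it has at least `2 ^ (b k)` satisfying assignments, and otherwise at most
`(n + 1) ^ (k - 1) 2 ^ (b (k - 1))`. So for polylogarithmic `k` and `b`, circuits that approximate the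
number can be used for CLIQUE on almost the same number of inputs. The lower bound for CLIQUE
(`MP_71c844_lc.AlternationNumber`) is proved by placing `n ^ 2 / (log n) ^ C` instances of a constraint
satisfaction problem in one graph and filling them one after the other.
-/

set_option autoImplicit false

namespace Pool.Agent.Results.MP_4ed1f9_lc.CountingFewNegations

open Finset

/-- The clauses with at most two literals, where the literal `(v, b)` says that the variable `v` has
the value `b`, and the variables are `0, ..., N - 1`. -/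
abbrev Clause (N : ℕ) : Type := {c : Finset (Fin N × Bool) // c.card ≤ 2}

/-- The number of assignments of values to the variables `0, ..., N - 1` that satisfy the formula
with the clauses `c` such that `x c = true`. -/
noncomputable def numSat {N : ℕ} (x : Clause N → Bool) : ℕ :=
  {α : Fin N → Bool | ∀ c : Clause N, x c = true → ∃ p ∈ c.1, α p.1 = p.2}.ncard

/-- A circuit with the gates `0, ..., s - 1` whose inputs are the bits of the elements of `E`. Gate `i`
has `w i` inputs, namely `a i j`, each a bit (`0` or `1`) or an earlier gate; it computes a function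
`op i` of real numbers, and its value on the input `x` is `val x i`. The circuit accepts if the value of
gate `out` is at least `τ`. The function `op i` is nondecreasing and `w i ≤ 2`, except for the gates in
the set `further`, for which it may be any function of the truth values of `θ i j ≤ z j`, where `z j`
is the `j`-th input of the gate (NOT gates, or truth tables with any number of inputs). -/
structure RealCircuit (E : Type) where
  s : ℕ
  further : Finset (Fin s)
  w : Fin s → ℕ
  a : (i : Fin s) → Fin (w i) → E ⊕ Fin s
  op : (i : Fin s) → (Fin (w i) → ℝ) → ℝ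
  θ : (i : Fin s) → Fin (w i) → ℝ
  val : (E → Bool) → Fin s → ℝ
  out : Fin s
  τ : ℝ
  earlier : ∀ i j m, a i j = Sum.inr m → m < i
  mono : ∀ i ∉ further, w i ≤ 2 ∧ Monotone (op i)
  threshold : ∀ i ∈ further, ∀ z z' : Fin (w i) → ℝ,
    (∀ j, θ i j ≤ z j ↔ θ i j ≤ z' j) → op i z = op i z'
  spec : ∀ x i, val x i = op i (fun j =>
    Sum.elim (fun e => if x e = true then (1 : ℝ) else 0) (val x) (a i j))

variable {E : Type}

/-- The circuit accepts the input `x`. -/
def RealCircuit.Accepts (C : RealCircuit E) (x : E → Bool) : Prop := C.τ ≤ C.val x C.out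

/-- The number of gates plus the number of inputs of the further gates. -/
def RealCircuit.size (C : RealCircuit E) : ℕ := C.s + ∑ i ∈ C.further, C.w i

/-- The product of the numbers `w i + 1` for the further gates `i` (`1` if there are none, and `2 ^ t`
for `t` NOT gates). -/
def RealCircuit.freedom (C : RealCircuit E) : ℕ := ∏ i ∈ C.further, (C.w i + 1)

/-- The `j`-th input of gate `i` when the circuit works on `x`. -/
noncomputable def RealCircuit.input (C : RealCircuit E) (x : E → Bool) (i : Fin C.s)
    (j : Fin (C.w i)) : ℝ :=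
  Sum.elim (fun e => if x e = true then (1 : ℝ) else 0) (C.val x) (C.a i j)

/-- Some further gate distinguishes the computations on `x` and on `y`: one of the tests `θ i j ≤ z j`
has different results. -/
def RealCircuit.Distinguishes (C : RealCircuit E) (x y : E → Bool) : Prop :=
  ∃ i ∈ C.further, ∃ j, ¬ (C.θ i j ≤ C.input x i j ↔ C.θ i j ≤ C.input y i j)

open Classical in
/-- The alternation number of the circuit is at most `A`: in every increasing sequence
`x 0 ≤ x 1 ≤ ... ≤ x q` of inputs there are at most `A` steps `i < q` such that some further gate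
distinguishes `x i` and `x (i + 1)`. -/
def RealCircuit.AlternationLE (C : RealCircuit E) (A : ℕ) : Prop :=
  ∀ (q : ℕ) (x : ℕ → E → Bool), Monotone x →
    ((range q).filter (fun i => C.Distinguishes (x i) (x (i + 1)))).card ≤ A

/-- The probability that the input `x` is accepted by a circuit that is chosen uniformly at random
from the family `Γ`. -/
noncomputable def acceptance {R : Type} (Γ : R → RealCircuit E) (x : E → Bool) : ℝ :=
  (Nat.card {ρ : R // (Γ ρ).Accepts x} : ℝ) / Nat.card R

/-- The functions that are available after the functions of the list `L` have been computed: the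
members of `L`, the constants and the inputs. -/
def Available (L : List ((E → Bool) → Bool)) (f : (E → Bool) → Bool) : Prop :=
  f ∈ L ∨ (∃ c : Bool, f = fun _ => c) ∨ ∃ e : E, f = fun x => x e

/-- Boolean circuits (straight-line programs) with AND, OR and NOT gates of fan-in at most two, one
gate for each member of the list, `t` of them NOT gates. -/
inductive BooleanCircuit : ℕ → List ((E → Bool) → Bool) → Prop
  | nil : BooleanCircuit 0 []
  | and {t L f g} (hL : BooleanCircuit t L) (hf : Available L f) (hg : Available L g) :
      BooleanCircuit t ((fun x => f x && g x) :: L)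
  | or {t L f g} (hL : BooleanCircuit t L) (hf : Available L f) (hg : Available L g) :
      BooleanCircuit t ((fun x => f x || g x) :: L)
  | not {t L f} (hL : BooleanCircuit t L) (hf : Available L f) :
      BooleanCircuit (t + 1) ((fun x => !f x) :: L)

/-- Some Boolean circuit with at most `t` NOT gates and at most `s` gates computes `W` bits from which
one can tell whether a formula with `N` variables that has at most `2 ^ A` or at least `2 ^ (A + g)`
satisfying assignments has at most `2 ^ A` of them. -/
def Separates (N t s W A g : ℕ) : Prop :=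
  ∃ (t' : ℕ) (L : List ((Clause N → Bool) → Bool)) (out : Fin W → (Clause N → Bool) → Bool)
    (D : (Fin W → Bool) → Prop), t' ≤ t ∧ BooleanCircuit t' L ∧ L.length ≤ s ∧
    (∀ j, Available L (out j)) ∧ (∀ x, numSat x ≤ 2 ^ A → D (fun j => out j x)) ∧
    (∀ x, 2 ^ (A + g) ≤ numSat x → ¬ D (fun j => out j x))

/-- The circuit in the notation of the library. -/
noncomputable def toRC (C : RealCircuit E) : Pool.Agent.W969.MC.RC E :=
  ⟨C.s, C.further, C.w, C.a, C.op, C.θ, C.val, C.out, C.τ, C.earlier, C.mono, C.threshold, C.spec⟩

lemma chg_iff (C : RealCircuit E) (x y : E → Bool) : (toRC C).chg y x ↔ C.Distinguishes x y := by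
  constructor
  · rintro ⟨i, hi, j, hj⟩
    exact ⟨i, hi, j, fun h => hj h.symm⟩
  · rintro ⟨i, hi, j, hj⟩
    exact ⟨i, hi, j, fun h => hj h.symm⟩

lemma altLe_iff (C : RealCircuit E) (A : ℕ) :
    Pool.Agent.H10x.NL.AltLe (toRC C) A ↔ C.AlternationLE A := by
  classical
  have key : ∀ (q : ℕ) (x : ℕ → E → Bool),
      (range q).filter (fun i => (toRC C).chg (x (i + 1)) (x i)) =
      (range q).filter (fun i => C.Distinguishes (x i) (x (i + 1))) := by
    intro q x
    apply Finset.filter_congr
    intro i _
    exact chg_iff C (x i) (x (i + 1))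
  constructor
  · intro h q x hx
    have h1 := h q x hx
    convert h1 using 2
    exact (key q x).symm
  · intro h q x hx
    have h1 := h q x hx
    convert h1 using 2
    exact key q x

lemma toBC {t : ℕ} {L : List ((E → Bool) → Bool)} (h : BooleanCircuit t L) :
    Pool.Agent.H10x.NL.BC t L := by
  induction h with
  | nil => exact .nil
  | and _ hf hg ih => exact .and ih hf hg
  | or _ hf hg ih => exact .or ih hf hg
  | not _ hf ih => exact .not ih hf

lemma ofBC {t : ℕ} {L : List ((E → Bool) → Bool)} (h : Pool.Agent.H10x.NL.BC t L) :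
    BooleanCircuit t L := by
  induction h with
  | nil => exact .nil
  | and _ hf hg ih => exact .and ih hf hg
  | or _ hf hg ih => exact .or ih hf hg
  | not _ hf ih => exact .not ih hf

lemma yes_bridge {R : Type} [Fintype R] [Nonempty R] (C : R → RealCircuit E)
    {x : E → Bool} {β : ℝ} (h : β ≤ acceptance C x) :
    β * Fintype.card R ≤ ({ρ : R | (toRC (C ρ)).acc x}.ncard : ℝ) := by
  have hR : (0 : ℝ) < Fintype.card R := by exact_mod_cast Fintype.card_pos
  unfold acceptance at h
  rw [Nat.card_eq_fintype_card (α := R), le_div_iff₀ hR] at h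
  refine h.trans (le_of_eq ?_)
  congr 1

lemma no_bridge {R : Type} [Fintype R] [Nonempty R] (C : R → RealCircuit E)
    {x : E → Bool} {β : ℝ} (h : acceptance C x ≤ β) :
    ({ρ : R | (toRC (C ρ)).acc x}.ncard : ℝ) ≤ β * Fintype.card R := by
  have hR : (0 : ℝ) < Fintype.card R := by exact_mod_cast Fintype.card_pos
  unfold acceptance at h
  rw [Nat.card_eq_fintype_card (α := R), div_le_iff₀ hR] at h
  refine le_trans (le_of_eq ?_) h
  congr 1

/-- (1) For all `B` there is `C > 0` such that for all `a` and all large `N` there is `A` such that: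
Boolean circuits with `t` NOT gates that compute `W` bits which separate the formulas with at most `2 ^ A`
satisfying assignments from those with at least `2 ^ (A + ⌊(log N) ^ B⌋)` have more than `N ^ a` gates, if
`2 ^ t (W + 1) ≤ N ^ 2 / (log N) ^ C`.
(2) For all `ε > 0` there is `δ > 0` such that for all large `N` there is `A` such that: circuits with
`t` NOT gates that compute `W` bits which separate the formulas with at most `2 ^ A` satisfying
assignments from those with at least `2 ^ (A + ⌊N ^ δ⌋)` have more than `2 ^ (N ^ δ)` gates, if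
`2 ^ t (W + 1) ≤ N ^ (2 - ε)`.
(3) (Markov, Fischer) Conversely, if some circuit with `s` gates computes `W` bits which separate such
formulas, then so does one with at most `⌈log₂ (2 N ^ 2 + N + 2)⌉` NOT gates and
`2 s + 10 (2 N ^ 2 + N + 2) ^ 3` gates.

Randomised real circuits. (4) There are `δ > 0`, `C > 0` and `l0` such that for all `l ≥ l0`, `G ≥ l ^ 2`
and `N` with `(log N) ^ 4 ≤ l` and `G l ^ C ≤ N` there is `A` such that: let a randomised circuit be given
in which every circuit has alternation number at most `N ^ 2 / (G ^ 2 l ^ C)`, and a number `α` such that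
formulas with at most `2 ^ A` satisfying assignments are accepted with probability at least
`α + l ^ (-δ)`, and those with at least `2 ^ (A + G)` with probability at most `α`. Then some of the
circuits has size at least `l ^ (δ l)`.
(5) The alternation number of a circuit is smaller than its freedom, and at most the number of inputs. -/
theorem result :
    (∀ B : ℕ, ∃ C : ℝ, 0 < C ∧ ∀ a : ℝ, ∃ n0 : ℕ, ∀ N : ℕ, n0 ≤ N → ∃ A : ℕ, ∀ t s W : ℕ,
      (2 : ℝ) ^ t * (W + 1) ≤ (N : ℝ) ^ 2 / (Real.log N) ^ C →
      Separates N t s W A ⌊(Real.log N) ^ B⌋₊ → (N : ℝ) ^ a < s) ∧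
    (∀ ε : ℝ, 0 < ε → ∃ δ : ℝ, 0 < δ ∧ ∃ n0 : ℕ, ∀ N : ℕ, n0 ≤ N → ∃ A : ℕ, ∀ t s W : ℕ,
      (2 : ℝ) ^ t * (W + 1) ≤ (N : ℝ) ^ (2 - ε) →
      Separates N t s W A ⌊(N : ℝ) ^ δ⌋₊ → (2 : ℝ) ^ ((N : ℝ) ^ δ) < s) ∧
    (∀ N t s W A g : ℕ, Separates N t s W A g →
      Separates N (Nat.clog 2 (2 * N ^ 2 + N + 2)) (2 * s + 10 * (2 * N ^ 2 + N + 2) ^ 3) W A g) ∧
    (∃ δ : ℝ, 0 < δ ∧ ∃ C : ℝ, 0 < C ∧ ∃ l0 : ℕ, ∀ N l G : ℕ, l0 ≤ l → l ^ 2 ≤ G →
      (Real.log N) ^ 4 ≤ l → (G : ℝ) * (l : ℝ) ^ C ≤ N → ∃ A : ℕ,
      ∀ (R : Type) [Finite R] [Nonempty R] (Γ : R → RealCircuit (Clause N)) (α : ℝ),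
        (∀ ρ, ∃ D : ℕ, (Γ ρ).AlternationLE D ∧
          (D : ℝ) ≤ (N : ℝ) ^ 2 / ((G : ℝ) ^ 2 * (l : ℝ) ^ C)) →
        (∀ x, numSat x ≤ 2 ^ A → α + (l : ℝ) ^ (-δ) ≤ acceptance Γ x) →
        (∀ x, 2 ^ (A + G) ≤ numSat x → acceptance Γ x ≤ α) →
        ∃ ρ, (l : ℝ) ^ (δ * l) ≤ (Γ ρ).size) ∧
    (∀ (E : Type) [Fintype E] (Γ : RealCircuit E), Γ.AlternationLE (Γ.freedom - 1) ∧
      Γ.AlternationLE (Fintype.card E)) := by
  classical
  refine ⟨?_, ?_, ?_, ?_, ?_⟩
  · intro B
    obtain ⟨C, hC, H⟩ := Pool.Agent.H10x.NL.G2.cnt_poly B
    refine ⟨C, hC, fun a => ?_⟩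
    obtain ⟨n0, hn0⟩ := H a
    refine ⟨n0, fun N hN => ?_⟩
    obtain ⟨A, hA⟩ := hn0 N hN
    refine ⟨A, ?_⟩
    rintro t s W ht ⟨t', L, out, D, h1, h2, h3, h4, h5, h6⟩
    have h7 := hA t' W L out D (toBC h2) h4 h5 h6
      ((mul_le_mul_of_nonneg_right (pow_le_pow_right₀ (by norm_num) h1) (by positivity)).trans ht)
    exact h7.trans_le (by exact_mod_cast h3)
  · intro ε hε
    obtain ⟨δ, hδ, n0, hn0⟩ := Pool.Agent.H10x.NL.G2.cnt_exp ε hε
    refine ⟨δ, hδ, n0, fun N hN => ?_⟩
    obtain ⟨A, hA⟩ := hn0 N hN
    refine ⟨A, ?_⟩
    rintro t s W ht ⟨t', L, out, D, h1, h2, h3, h4, h5, h6⟩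
    have h7 := hA t' W L out D (toBC h2) h4 h5 h6
      ((mul_le_mul_of_nonneg_right (pow_le_pow_right₀ (by norm_num) h1) (by positivity)).trans ht)
    exact h7.trans_le (by exact_mod_cast h3)
  · rintro N t s W A g ⟨t', L, out, D, h1, h2, h3, h4, h5, h6⟩
    obtain ⟨t'', L', g1, g2, g3, g4⟩ := Pool.Agent.H10x.NL.fis_multi (Clause N) t' s L (toBC h2) h3
    rw [show Fintype.card (Clause N) = 2 * N ^ 2 + N + 1 from
      Pool.Agent.H10x.NL.G2.card_cls N] at g1 g3
    exact ⟨t'', L', out, D, g1, ofBC g2, g3, fun j => g4 _ (h4 j), h5, h6⟩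
  · obtain ⟨δ, hδ, C, hC, l0, H⟩ := Pool.Agent.H10x.NL.G2.cnt_rand Pool.Agent.H10x.NL.t_DUAL
      Pool.Agent.H10x.NL.t_CNT
    refine ⟨δ, hδ, C, hC, l0, ?_⟩
    intro N l G hl hG hlog hN
    obtain ⟨A, hA⟩ := H N l G hl hG hlog hN
    refine ⟨A, ?_⟩
    intro R _ _ Γ α hD hyes hno
    let _ : Fintype R := Fintype.ofFinite R
    choose Dl hD1 hD2 using hD
    exact hA R (Clause N) (fun c => c) (fun ρ => toRC (Γ ρ)) α Dl
      (fun ρ => (altLe_iff (Γ ρ) (Dl ρ)).mpr (hD1 ρ)) hD2
      (fun x hx => yes_bridge Γ (hyes x hx)) (fun x hx => no_bridge Γ (hno x hx))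
  · intro E _ Γ
    exact ⟨(altLe_iff Γ _).mp (Pool.Agent.H10x.NL.altLe_free (toRC Γ)),
      (altLe_iff Γ _).mp (Pool.Agent.H10x.NL.altLe_card (toRC Γ))⟩

end Pool.Agent.Results.MP_4ed1f9_lc.CountingFewNegations
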