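import Pool.Agent.H5Lin.CountL
import Pool.Agent.H5Lin.FreeApp
import Pool.Agent.H5Lin.Copies

/-!
# Exact counting with linear algebra gates

Let `X` be a finite set and let `B` disjoint blocks of four elements of `X` be given, with the Klein
four-group acting regularly on each of them; these generate an abelian group of order `4 ^ B`, which
acts on the `X × X` matrices by simultaneous permutations of rows and columns. We consider circuits for
the exact counting of the satisfying assignments of monotone 2-CNF formulas (the clauses are
`p ∨ q` for the ones `(p, q)` of the matrix; it is trivial to find a satisfying assignment) and for the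
permanent of matrices of zeros and ones (the number of perfect matchings), on which this group acts.
The circuits have arbitrary symmetric gates, and in addition matrix gates: a matrix gate computes any
function of a square matrix over a field that is invariant under orthogonal changes of basis, for
example the determinant, the rank or the characteristic polynomial; the entries of the matrix are values
of other gates.

(1), (2) If no field has characteristic two, exponential size in `B` is necessary. In particular the
permanent cannot be reduced to determinants in an equivariant way.

(3) This is tight up to the constant in the exponent, relative to circuits without any symmetry: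
`4 ^ B` copies suffice.

(4) The assumption on the characteristic is necessary in the strongest sense: with matrix gates over the
field with two elements (which compute the size of the kernel), the equivariance costs only a
polynomial. More precisely, every Boolean circuit that decides a property which is invariant under the
group can be replaced by an equivariant one with polynomially many additional gates, whose additional
gates are kernel gates and gates with a bounded number of wires. So in characteristic two the question
is the same as for general circuits.

Proof ideas. (1), (2): the instances are graphs `G (σ, w)` built from a random bipartite cubic graph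
`σ` with edge parameters `w`. A circuit with few gates does not see the parity of the sum of `w`, but
the number of satisfying assignments (perfect matchings) does. For matrix gates, the stabiliser of the
gate is diagonalised over a field of characteristic different from two, and a change of `w` amounts to
multiplication of the blocks by signs, which is an orthogonal change of basis.
(4): The circuit first computes a canonical form of the input under the group, one orbit of entries
after the other. Whether a pattern can be reached on the next orbit by a group element that is
compatible with the choices made before is a system of linear equations over the field with two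
elements, whose equations are permuted by the group. Then any circuit can be applied to the
canonical form, which is invariant.
-/

set_option autoImplicit false

namespace Pool.Agent.Results.MP_4ed1f9_lc.CountingLinearAlgebra

open Pool.Agent.H5Sym Pool.Agent.H5Lin

universe u

/-- **Theorem.** Let `e` be an embedding of `β × K4` into the finite set `X`, that is, `B = |β|` disjoint
blocks of four elements of `X`. The group `β → K4` acts on `X × X` by the translations
`(i, a) ↦ (i, a + v i)` of the blocks, applied to both components.
(1) Let this group act on a circuit with symmetric gates and matrix gates, with values in any set `D`,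
where no field has characteristic two. If the value of the output determines the number of satisfying
assignments of every monotone 2-CNF formula with the variables `X` whose graph is bipartite with maximum
degree at most six, then the number `s` of gates and rows of matrices satisfies
`s ^ 2 * (B + 1) ^ 3 ≥ 12 ^ (B / 24)`.
(2) If it determines the permanent of every symmetric matrix of zeros and ones with at most six ones in
each row, then `s ^ 2 * (B + 1) ^ 9 ≥ 36 ^ (B / 216)`.
(3) Every Boolean circuit with `s` gates for a property of the matrices that is invariant under the
group can be replaced by one with `4 ^ B * s + 1` gates on which the group acts, without matrix gates;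
its gates compute OR or the same functions as the given gates.
(4) It can also be replaced by one with `s + c (|X| + 1) ^ 4` gates and rows on which the group acts, for
a constant `c`: its gates compute the size of the kernel of a matrix over the field with two elements,
or have at most `c` wires, or compute the same functions as the given gates. -/
theorem result :
    (∀ (β X : Type) [Finite X] (e : β × K4 ↪ X) (D : Type u) (C : LCircuit.{0, u} (X × X) D)
      [Finite C.Gate] (inp : Bool → D) (dec : D → ℕ),
      C.Action (fun v : β → K4 => pairPerm ((blockShift v).viaEmbedding e)) → C.OddFields →
      (∀ x, Bipartite6 x → dec (C.eval (inp ∘ x) C.out) = numSat x) →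
      12 ^ (Nat.card β / 24) ≤ C.size ^ 2 * (Nat.card β + 1) ^ 3) ∧
    (∀ (β X : Type) [Finite X] (e : β × K4 ↪ X) (D : Type u) (C : LCircuit.{0, u} (X × X) D)
      [Finite C.Gate] (inp : Bool → D) (dec : D → ℕ),
      C.Action (fun v : β → K4 => pairPerm ((blockShift v).viaEmbedding e)) → C.OddFields →
      (∀ x, SymmetricSix x →
        dec (C.eval (inp ∘ x) C.out) = per fun t => if x t then (1 : ℕ) else 0) →
      36 ^ (Nat.card β / 216) ≤ C.size ^ 2 * (Nat.card β + 1) ^ 9) ∧
    (∀ (β X : Type) [Finite X] (e : β × K4 ↪ X) (P : (X × X → Bool) → Prop)
      (C : Circuit.{0, 0, 0} (X × X) Bool) [Finite C.Gate],
      (∀ x (v : β → K4), P (x ∘ pairPerm ((blockShift v).viaEmbedding e)) ↔ P x) →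
      (∀ x, C.eval x C.out = true ↔ P x) →
      ∃ C' : LCircuit.{0, 0} (X × X) Bool,
        Nonempty (C'.Action fun v : β → K4 => pairPerm ((blockShift v).viaEmbedding e)) ∧
        Finite C'.Gate ∧
        (∀ g, (∃ t, C'.label g = .input t) ∨ C'.label g = .sym orGate ∨
          ∃ h, C'.label g = .sym (C.op h)) ∧
        (∀ x, C'.eval x C'.out = true ↔ P x) ∧
        C'.size = 4 ^ Nat.card β * Nat.card C.Gate + 1) ∧
    ∃ c : ℕ, ∀ (β X : Type) [Finite X] (e : β × K4 ↪ X) (P : (X × X → Bool) → Prop)
      (C : Circuit.{0, 0, 0} (X × X) Bool) [Finite C.Gate],
      (∀ x (v : β → K4), P (x ∘ pairPerm ((blockShift v).viaEmbedding e)) ↔ P x) →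
      (∀ x, C.eval x C.out = true ↔ P x) →
      ∃ C' : LCircuit.{0, 0} (X × X) ℕ,
        Nonempty (C'.Action fun v : β → K4 => pairPerm ((blockShift v).viaEmbedding e)) ∧
        Finite C'.Gate ∧ KernelExtension C C' c ∧
        (∀ x : X × X → Bool,
          C'.eval ((fun b : Bool => if b then 1 else 0) ∘ x) C'.out = 1 ↔ P x) ∧
        C'.size ≤ Nat.card C.Gate + c * (Nat.card X + 1) ^ 4 := by
  refine ⟨fun β X _ e D C _ inp dec act h1 h2 => lowerTwoL e C inp dec act h1 h2,
    fun β X _ e D C _ inp dec act h1 h2 => lowerPerL e C inp dec act h1 h2,
    fun β X _ e P C _ hP hC => ?_, freeC 4, fun β X _ e P C _ hP hC => freeK4 e P hP C hC⟩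
  have : Finite (β × K4) := Finite.of_injective e e.injective
  have : Finite β := Finite.of_surjective (Prod.fst : β × K4 → β) Prod.fst_surjective
  have : Fintype (β → K4) := Fintype.ofFinite _
  obtain ⟨C', h1, h2, h3, h4, h5⟩ := symmetrise
    (fun v : β → K4 => pairPerm ((blockShift v).viaEmbedding e)) C (hρ_pair e) P hP hC
  refine ⟨C', h1, h2, h3, h4, h5.trans ?_⟩
  rw [Nat.card_fun]
  have h6 : Nat.card K4 = 4 := by
    change Nat.card (ZMod 2 × ZMod 2) = 4
    rw [Nat.card_prod, Nat.card_eq_fintype_card, ZMod.card]
  rw [h6]

end Pool.Agent.Results.MP_4ed1f9_lc.CountingLinearAlgebra
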