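import Pool.Agent.H5Dich.Criterion

/-!
# Counting the solutions of Boolean constraints: which problems remain equally hard for circuits that
are invariant under flips?

Let `Γ` be a finite family of Boolean relations. The instances are sets of constraints, in which a
relation of `Γ` is applied to literals (variables or negated variables). Flipping a set of variables
permutes the instances and does not change the number of solutions. So it is natural to ask whether
the number of solutions can be computed, or the existence of a solution be decided, by circuits that
are invariant under flips. We give the complete answer. The relations of `Γ` are compared with their
subsets which are affine subspaces. `Parity Γ` says that some relation of `Γ` contains an affine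
subspace `A`, but not all the vectors that satisfy all those equations with at most two variables
(`x u = c`, `x u + x v = c`) which hold on `A`.

(1) If `Parity Γ`, then circuits with arbitrary symmetric gates which are invariant under a group `U`
of flips and which decide whether there is a solution (for example since they count the solutions)
have at least `2 ^ ⌊dim U / c⌋` gates, where `c` depends on `Γ` only. It even suffices that the
circuits distinguish the instances with at least `2 ^ (n - dim U)` solutions from those without a
solution, where `n` is the number of variables.

(2) If not, then every Boolean circuit that decides a property `p` of the number of solutions (for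
example a bit of this number, or whether it is not `0`) can be replaced by a circuit that does so and
is invariant under all flips, with at most `c (n + 1) ^ c` further gates, which compute AND and OR of
literals.

(3) For clauses of length `k` (`k`-SAT) we are in case (1) if and only if `k ≥ 3`, and for the problem
`k`-NAE-SAT (no constraint has `k` equal literals) if and only if `k ≥ 4`.

So for `#2SAT` and `#3-NAE-SAT` the invariance under flips does not make any difference: these
problems have invariant circuits of polynomial size if and only if they have circuits of polynomial
size at all. But for `#3SAT` and `#4-NAE-SAT` exponentially many gates are necessary.

Proof of (1). By intersecting translates, an affine subspace which is not defined by equations with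
two variables is the set of solutions of some instance. Copies of this instance on random sets of
variables, with arbitrary right-hand sides, form sparse linear systems which a circuit with few gates
cannot tell from each other: a gate with a small orbit depends, by induction on the level, only on
few sums of right-hand sides.

Proof of (2). For every scope let `S` be the set of the solutions of the constraints on this scope.
The flips that preserve `S` form a subspace which is defined by equations with at most two variables.
So all the flips which preserve all these sets are those which are constant on the classes of an
equivalence relation (and `0` on one class). The signs of the variables of a class with respect to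
each other are computed by merging the classes one after the other; the gates for this depend on two
or three variables only, and therefore have small orbits. When the signs have been normalised in this
way, the instance does not change under flips any more, and any circuit can be applied to it.
-/

set_option autoImplicit false

namespace Pool.Agent.Results.MP_4ed1f9_lc.FlipDichotomy

open Pool.Agent.H5Sym Pool.Agent.H5Dich

universe u w

/-- **Theorem.** Let `Γ` be a finite family of Boolean relations; the instances are the sets of
constraints over the variables `Fin n`, which are relations of `Γ` applied to literals.
(1) If `Parity Γ`, then for some `c > 0` the following holds for all `n` and all subspaces `U` of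
`Fin n → ZMod 2`: if a circuit with values in any set `D`, whose gates compute arbitrary functions of
the multiset of the labelled values of their wires, is invariant under the flips in `U`, accepts the
instances with at least `2 ^ (n - dim U)` solutions and rejects the instances without a solution, then
it has at least `2 ^ ⌊dim U / c⌋` gates.
(2) If not, then for some `c` the following holds for all `n` and all properties `p` of natural
numbers: for each Boolean circuit `C` that accepts exactly the instances for which the number of
solutions has the property `p` there is such a circuit with at most `|C| + c (n + 1) ^ c` gates that is
invariant under all flips; its gates compute ORs or ANDs of literals or the same functions as gates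
of `C`.
(3) `Parity` holds for the family which consists of the relation `x ≠ 0` of arity `k` if and only if
`k ≥ 3`, and for the relation of arity `k` that not all entries are equal if and only if `k ≥ 4`. -/
theorem result :
    (∀ Γ : Lang, Parity Γ → ∃ c : ℕ, 0 < c ∧ ∀ (n : ℕ) (U : Submodule (ZMod 2) (Fin n → ZMod 2))
      (D : Type u) (C : Circuit.{0, u, w} (Con Γ (Fin n)) D) [Finite C.Gate] (inp : Bool → D)
      (acc : D → Prop), (∀ u ∈ U, C.Invariant (flipC u)) →
      (∀ φ : Con Γ (Fin n) → Bool, 2 ^ (n - Module.finrank (ZMod 2) U) ≤ Nat.card (sol (ones φ)) →
        acc (C.eval (inp ∘ φ) C.out)) →
      (∀ φ : Con Γ (Fin n) → Bool, sol (ones φ) = ∅ → ¬ acc (C.eval (inp ∘ φ) C.out)) →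
      2 ^ (Module.finrank (ZMod 2) U / c) ≤ Nat.card C.Gate) ∧
    (∀ Γ : Lang, ¬ Parity Γ → ∃ c : ℕ, ∀ (n : ℕ) (p : ℕ → Prop)
      (C : Circuit.{0, 0, w} (Con Γ (Fin n)) Bool) [Finite C.Gate],
      (∀ φ, C.eval φ C.out = true ↔ p (Nat.card (sol (ones φ)))) →
      ∃ C' : Circuit.{0, 0, w} (Con Γ (Fin n)) Bool, (∀ u, C'.Invariant (flipC u)) ∧
        (∀ φ, C'.eval φ C'.out = true ↔ p (Nat.card (sol (ones φ)))) ∧
        (∀ g, C'.op g = orLit ∨ C'.op g = andLit ∨ ∃ h, C'.op g = C.op h) ∧ Finite C'.Gate ∧
        Nat.card C'.Gate ≤ Nat.card C.Gate + c * (n + 1) ^ c) ∧
    (∀ k, Parity (kSat k) ↔ 3 ≤ k) ∧ (∀ k, Parity (nae k) ↔ 4 ≤ k) :=
  ⟨fun _ h => lower (parity_iff.1 h), fun _ h => upper fun h' => h (parity_iff.2 h'),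
    parity_kSat, parity_nae⟩

end Pool.Agent.Results.MP_4ed1f9_lc.FlipDichotomy
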