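import Mathlib
import Pool.Agent.Helper1x.EH.LowS
import Pool.Agent.Helper1x.EH.LowSQ
import Pool.Agent.Helper1x.EH.LowSG
import Pool.Agent.Helper1x.EH.Lift
import Pool.Agent.Helper1x.EB.Wgt
import Pool.Agent.Helper1x.EB.Gnb
import Pool.Agent.Helper1x.EB.Geni
import Pool.Agent.Helper1x.EH.MobA
import Pool.Agent.Helper1x.EH.Split
import Pool.Agent.Helper1x.EH.Hom
import Pool.Agent.Helper1x.EH.BlockS
import Pool.Agent.Helper1x.EG.Upg
import Pool.Agent.HS38.GT.Sat

/-!
# Circuits with determinant, permanent, Pfaffian and hafnian gates for counting and deciding k-SAT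

Consider arithmetic circuits with quadratic gates, determinant gates, gates for generalized matrix functions (permanents,
immanants) and gates for matching functions (Pfaffians, hafnians) of arbitrary size, which compute any polynomial whose
values at zero-one points decide the satisfiability of k-CNF formulas (or count the satisfying assignments). Fix one
generic gauge symmetry. If the quadratic gates are sums of `w` eigenvectors and the other gates are equivariant, then
`w * size` is at least `2 ^ (n / 20) / 2`. So the gates of every small circuit with quadratic gates have exponentially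
many weights (every polynomial is a sum of eigenvectors, there is no symmetry assumption in this case). Nothing is
required for the formulas with more than one satisfying assignment, and the values need to be correct only approximately,
in any absolute value. It is enough that the gauge symmetry is generic on a block of `r` variables, then the bound is
`2 ^ (r / 20) / 2`. If there are only quadratic gates, then `w` times their number is at least `2 ^ a` for all `a` with
`4 a ^ k ≤ r ^ k`, for example for `a = r / 2`; for large `k` this is near to the upper bound `2 ^ r`. There is a similar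
bound for matrices of bounded size. More generally for constraint satisfaction problems with constraints on `k` of
the `n` variables over a finite domain with `q` elements (with `q` in place of `2` in the bounds), and for polynomials which are correct only at a `1 / R` fraction of the places
where an instance with exactly one solution becomes unsolvable.

The pieces of the proof were written together with helper22, helper78, helper11 and helper38.
-/
set_option autoImplicit false

namespace Pool.Agent.Results.MP_4ed1f9_lc.GaugeEquivariantCircuits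

open Finset

/-- the sets of `k` of the `n` variables, the scopes of the constraints -/
def scopes (n k : ℕ) : Finset (Finset (Fin n)) := (univ : Finset (Fin n)).powersetCard k

/-- the restriction of the assignment `x` to the scope `K`, a partial assignment -/
def restr {n : ℕ} {A : Type} (K : Finset (Fin n)) (x : Fin n → A) : Fin n → Option A :=
  fun i => if i ∈ K then some (x i) else none

/-- the scope of a partial assignment -/
def scope {n : ℕ} {A : Type} (β : Fin n → Option A) : Finset (Fin n) := univ.filter fun i => (β i).isSome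

/-- the restrictions of the assignment `x` to the scopes -/
def restrictions {n : ℕ} {A : Type} [DecidableEq A] (k : ℕ) (x : Fin n → A) : Finset (Fin n → Option A) :=
  (scopes n k).image fun K => restr K x

/-- The value of `f` at the zero-one point of the set `Y` of the partial assignments which the constraints of an instance
allow. The solutions of the instance are the assignments `x` all whose restrictions are in `Y`; in the case of k-SAT
there is a clause for every partial assignment with `k` variables which is not in `Y`. -/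
noncomputable def value {n : ℕ} {F A : Type} [Field F] [DecidableEq A] (f : MvPolynomial (Fin n → Option A) F)
    (Y : Finset (Fin n → Option A)) : F := MvPolynomial.eval (fun β => if β ∈ Y then (1 : F) else 0) f

/-- the substitution `X ↦ c X` -/
noncomputable def scale {X F : Type} [Field F] (c : X → F) : MvPolynomial X F →ₐ[F] MvPolynomial X F :=
  MvPolynomial.aeval fun x => MvPolynomial.C (c x) * MvPolynomial.X x

/-- the gauge substitution of the numbers `t K i α`: the variable of a partial assignment `β` with scope `K` is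
multiplied by the product of the numbers `t K i (β i)`, `i ∈ K` -/
def gauge {n : ℕ} {F A : Type} [Field F] (t : Finset (Fin n) → Fin n → A → Fˣ) (β : Fin n → Option A) : F :=
  ((∏ i, (β i).elim 1 (t (scope β) i) : Fˣ) : F)

open Classical in
/-- the gauge substitution `t` on the block `ι` of the variables: the variables of the partial assignments with scope in
the block are multiplied as above, the others are unchanged -/
noncomputable def blockGauge {n r : ℕ} {F A : Type} [Field F] (ι : Fin r ↪ Fin n)
    (t : Finset (Fin r) → Fin r → A → Fˣ) (β : Fin n → Option A) : F :=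
  if ∀ i, (β i).isSome → i ∈ Set.range ι then gauge t (fun i => β (ι i)) else 1

/-- The gauge substitution is a symmetry of the products of the variables `restr K x`: for every `i` and `α` the product of
the numbers `t K i α` over all `K` which contain `i` is one. It is generic of level `D`: there are no further
multiplicative relations with exponents of absolute value at most `2 D`. -/
def Generic {n : ℕ} {F A : Type} [Field F] [Fintype A] (D k : ℕ)
    (t : Finset (Fin n) → Fin n → A → Fˣ) : Prop :=
  (∀ i α, ∏ K ∈ (scopes n k).filter (fun K => i ∈ K), t K i α = 1) ∧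
  ∀ e : Finset (Fin n) → Fin n → A → ℤ, (∀ K i α, |e K i α| ≤ 2 * D) →
    ∏ K ∈ scopes n k, ∏ i ∈ K, ∏ α, t K i α ^ e K i α = 1 →
    ∀ i α, ∀ K ∈ scopes n k, i ∈ K → ∀ K' ∈ scopes n k, i ∈ K' → e K i α = e K' i α

/-- the span of one, the variables and the polynomials `p j`, `j < g` -/
noncomputable def Earlier {X F : Type} [Field F] (p : ℕ → MvPolynomial X F) (g : ℕ) : Submodule F (MvPolynomial X F) :=
  Submodule.span F ({1} ∪ Set.range MvPolynomial.X ∪ p '' Set.Iio g)

/-- quadratic gate: a linear combination of products of two elements of `Earlier p g` -/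
def Quadratic {X F : Type} [Field F] (p : ℕ → MvPolynomial X F) (g : ℕ) : Prop :=
  p g ∈ Earlier p g * Earlier p g

/-- determinant gate of size `m`: the entries are in `Earlier p g`, and the matrix is equivariant, `M(c X) = B M(X) C`
with invertible matrices `B`, `C` over `F` -/
def DetGate {X F : Type} [Field F] (c : X → F) (p : ℕ → MvPolynomial X F) (g m : ℕ) : Prop :=
  ∃ (M : Matrix (Fin m) (Fin m) (MvPolynomial X F)) (B C : Matrix (Fin m) (Fin m) F), (∀ u v, M u v ∈ Earlier p g) ∧
    IsUnit B.det ∧ IsUnit C.det ∧ M.map (scale c) = B.map MvPolynomial.C * M * C.map MvPolynomial.C ∧ p g = M.det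

/-- gate for a generalized matrix function `∑ π, χ π ∏ v, M (π v) v` of size `m` (permanent, immanants, ...): the entries
are in `Earlier p g`, and the matrix is equivariant, `M(c X) = B M(X) C` with invertible diagonal matrices over `F` -/
def MatrixFunctionGate {X F : Type} [Field F] (c : X → F) (p : ℕ → MvPolynomial X F) (g m : ℕ) : Prop :=
  ∃ (M : Matrix (Fin m) (Fin m) (MvPolynomial X F)) (b μ : Fin m → Fˣ) (χ : Equiv.Perm (Fin m) → F),
    (∀ u v, M u v ∈ Earlier p g) ∧
    (∀ u v, scale c (M u v) = MvPolynomial.C ((b u : F) * (μ v : F)) * M u v) ∧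
    p g = ∑ π, MvPolynomial.C (χ π) * ∏ v, M (π v) v

/-- gate for a matching function `∑ τ, χ τ ∏_{v < τ v}, M v (τ v)` of size `m` (Pfaffian, hafnian, ...), `τ` runs
through the perfect matchings of the complete graph on `Fin m`, the involutions without fixed points: the entries are in
`Earlier p g`, and the matrix is equivariant, `M(c X) = B M(X) B` with an invertible diagonal matrix over `F` -/
def MatchingFunctionGate {X F : Type} [Field F] (c : X → F) (p : ℕ → MvPolynomial X F) (g m : ℕ) : Prop :=
  ∃ (M : Matrix (Fin m) (Fin m) (MvPolynomial X F)) (b : Fin m → Fˣ) (χ : Equiv.Perm (Fin m) → F),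
    (∀ u v, M u v ∈ Earlier p g) ∧
    (∀ u v, scale c (M u v) = MvPolynomial.C ((b u : F) * (b v : F)) * M u v) ∧
    p g = ∑ τ ∈ (univ : Finset (Equiv.Perm (Fin m))).filter (fun τ => ∀ v, τ (τ v) = v ∧ τ v ≠ v),
      MvPolynomial.C (χ τ) * ∏ v ∈ (univ : Finset (Fin m)).filter (fun v => v < τ v), M v (τ v)

/-- `f` is an eigenvector of the substitution `X ↦ c X` -/
def Eigenvector {X F : Type} [Field F] (c : X → F) (f : MvPolynomial X F) : Prop :=
  ∃ a : F, scale c f = MvPolynomial.C a * f

/-- `f` is a sum of `w` eigenvectors of the substitution `X ↦ c X` -/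
def SumOfEigenvectors {X F : Type} [Field F] (c : X → F) (w : ℕ) (f : MvPolynomial X F) : Prop :=
  ∃ q : Fin w → MvPolynomial X F, (∀ i, Eigenvector c (q i)) ∧ f = ∑ i, q i

/-- `p 0, ..., p (G - 1)` is a circuit with at most `w` weights under the substitution `X ↦ c X`: every gate is a
quadratic gate and a sum of `w` eigenvectors, or it is an eigenvector and a determinant gate, a gate for a generalized
matrix function or a gate for a matching function, of size `m g` -/
def Circuit {X F : Type} [Field F] (c : X → F) (w G : ℕ) (p : ℕ → MvPolynomial X F) (m : ℕ → ℕ) : Prop :=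
  ∀ g < G, (Quadratic p g ∧ SumOfEigenvectors c w (p g)) ∨ (Eigenvector c (p g) ∧
    (DetGate c p g (m g) ∨ MatrixFunctionGate c p g (m g) ∨ MatchingFunctionGate c p g (m g)))

/-- the size of a circuit -/
def size (G : ℕ) (m : ℕ → ℕ) : ℕ := ∑ g ∈ range G, (m g + 1)

/-- `f` is computed by a circuit of size `s` with at most `w` weights under the substitution `X ↦ c X` -/
def Computes {X F : Type} [Field F] (c : X → F) (w s : ℕ) (f : MvPolynomial X F) : Prop :=
  ∃ (G : ℕ) (p : ℕ → MvPolynomial X F) (m : ℕ → ℕ), Circuit c w G p m ∧ f ∈ Earlier p G ∧ size G m = s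

open Classical in
/-- at least `|A| ^ n / R` of the assignments satisfy `P` -/
def Many {n : ℕ} {A : Type} [Fintype A] (R : ℕ) (P : (Fin n → A) → Prop) : Prop :=
  Fintype.card A ^ n ≤ R * (univ.filter P).card

/-- `t` is generic of a level which bounds the degrees of `f` in the variables, or generic of all levels -/
def GenericFor {n r : ℕ} {F A : Type} [Field F] [Fintype A] (k : ℕ) (f : MvPolynomial (Fin n → Option A) F)
    (t : Finset (Fin r) → Fin r → A → Fˣ) : Prop :=
  (∃ D, Generic D k t ∧ ∀ β, f.degreeOf β ≤ D) ∨ ∀ D, Generic D k t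

/-- The values of `f` are of size at most `2 ^ (-N)` for the instances without solution, and of size at least one for
those with exactly one solution. For the trivial absolute value and `N > 0`: the values are zero, respectively not zero. -/
def Decides {n : ℕ} {F A : Type} [Field F] [DecidableEq A] (v : AbsoluteValue F ℝ) (k N : ℕ)
    (f : MvPolynomial (Fin n → Option A) F) : Prop :=
  (∀ Y, (∀ x : Fin n → A, ¬ restrictions k x ⊆ Y) → 2 ^ N * v (value f Y) ≤ 1) ∧
    ∀ Y, (∃! x : Fin n → A, restrictions k x ⊆ Y) → 1 ≤ v (value f Y)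

open Classical in
theorem Many.mono {n R : ℕ} {A : Type} [Fintype A] {P Q : (Fin n → A) → Prop} (h : Many R P) (hPQ : ∀ x, P x → Q x) :
    Many R Q :=
  h.trans (Nat.mul_le_mul_left _ (Finset.card_le_card fun x hx =>
    mem_filter.2 ⟨mem_univ _, hPQ x (mem_filter.1 hx).2⟩))

open Classical in
theorem Many.le {n R : ℕ} {A : Type} [Fintype A] {P : (Fin n → A) → Prop} (h : Many R P) (inst : DecidablePred P) :
    Fintype.card A ^ n ≤ R * (@Finset.filter _ P inst univ).card := by
  obtain rfl : inst = fun a => Classical.propDecidable (P a) := Subsingleton.elim _ _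
  exact h

open Classical in
theorem many_all {n : ℕ} {A : Type} [Fintype A] {P : (Fin n → A) → Prop} (h : ∀ x, P x) : Many 1 P := by
  unfold Many
  rw [one_mul, Finset.filter_true_of_mem fun x _ => h x, Finset.card_univ, Fintype.card_fun, Fintype.card_fin]

theorem restr_eq {n k : ℕ} {A : Type} [DecidableEq A] {x x' : Fin n → A} {K : Finset (Fin n)}
    (h : restr K x' ∈ restrictions k x) {i : Fin n} (hi : i ∈ K) : x' i = x i := by
  obtain ⟨K', _, h1⟩ := mem_image.1 h
  have h2 := congrFun h1 i
  unfold restr at h2
  rw [if_pos hi] at h2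
  by_cases h3 : i ∈ K'
  · rw [if_pos h3] at h2
    exact (Option.some.inj h2).symm
  · rw [if_neg h3] at h2
    exact absurd h2 (by simp)

theorem eq_of_subset {n k : ℕ} {A : Type} [DecidableEq A] (hk : 1 ≤ k) (hkn : k ≤ n) {x x' : Fin n → A}
    (h : restrictions k x' ⊆ restrictions k x) : x' = x := by
  funext i
  obtain ⟨K, h1, _, h2⟩ := Finset.exists_subsuperset_card_eq (Finset.subset_univ ({i} : Finset (Fin n)))
    (n := k) (by rw [Finset.card_singleton]; exact hk) (by rw [Finset.card_univ, Fintype.card_fin]; exact hkn)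
  have hK : K ∈ scopes n k := Finset.mem_powersetCard.2 ⟨Finset.subset_univ _, h2⟩
  exact restr_eq (h (mem_image_of_mem _ hK)) (h1 (Finset.mem_singleton_self i))

theorem restr_injective {n : ℕ} {A : Type} (x : Fin n → A) : Function.Injective fun K : Finset (Fin n) => restr K x := by
  intro K K' h
  ext i
  have h1 := congrFun h i
  simp only [restr] at h1
  by_cases h2 : i ∈ K <;> by_cases h3 : i ∈ K' <;> simp [h2, h3] at h1 ⊢

theorem card_restrictions {n k : ℕ} {A : Type} [DecidableEq A] (x : Fin n → A) :
    (restrictions k x).card = n.choose k := by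
  rw [restrictions, Finset.card_image_of_injective _ (restr_injective x), scopes, Finset.card_powersetCard,
    Finset.card_univ, Fintype.card_fin]

open Classical in
/-- the block gauge substitution in the group of units -/
noncomputable def blockU {n r : ℕ} {F A : Type} [Field F] (ι : Fin r ↪ Fin n)
    (t : Finset (Fin r) → Fin r → A → Fˣ) (β : Fin n → Option A) : Fˣ :=
  if ∀ i, (β i).isSome → i ∈ Set.range ι then Pool.Agent.Helper1x.EG.gu t (fun i => β (ι i)) else 1

theorem blockU_val {n r : ℕ} {F A : Type} [Field F] (ι : Fin r ↪ Fin n) (t : Finset (Fin r) → Fin r → A → Fˣ) :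
    (fun β => ((blockU ι t β : Fˣ) : F)) = blockGauge ι t := by
  classical
  funext β
  unfold blockU blockGauge
  by_cases h : ∀ i, (β i).isSome → i ∈ Set.range ι
  · rw [if_pos h, if_pos h]
    rfl
  · rw [if_neg h, if_neg h, Units.val_one]

open Classical in
/-- **Circuits with determinant, permanent, Pfaffian and hafnian gates for #k-SAT and k-SAT.** -/
theorem result :
    -- (1) the lower bound for polynomials with many of the monomials
    (∀ (F A : Type) [Field F] [Fintype A] (n k D : ℕ), 2 ≤ Fintype.card A → 200 ≤ n → 2 ≤ k → k < n →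
      ∀ t : Finset (Fin n) → Fin n → A → Fˣ, Generic D k t →
      ∀ (w s R : ℕ) (f : MvPolynomial (Fin n → Option A) F), 1 ≤ w → Computes (gauge t) w s f →
      Many R (fun x : Fin n → A => ∃ u ∈ f.support, u.support = restrictions k x ∧ ∀ β, u β ≤ D) →
      Fintype.card A ^ n ≤ (2 * R * (w * s) ^ 2) ^ 10) ∧
    -- (2) the lower bound for polynomials with approximately correct values for many instances
    (∀ (F A : Type) [Field F] [Fintype A] (v : AbsoluteValue F ℝ) (n k D : ℕ), 2 ≤ Fintype.card A → 200 ≤ n → 2 ≤ k →
      k < n → ∀ t : Finset (Fin n) → Fin n → A → Fˣ, Generic D k t →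
      ∀ (w s R : ℕ) (f : MvPolynomial (Fin n → Option A) F), 1 ≤ w → Computes (gauge t) w s f →
      (∀ β, f.degreeOf β ≤ D) → Many R (fun x : Fin n → A => value f (restrictions k x) ≠ 0 ∧
        ∀ Y, Y ⊂ restrictions k x → 2 ^ n.choose k * v (value f Y) ≤ v (value f (restrictions k x))) →
      Fintype.card A ^ n ≤ (2 * R * (w * s) ^ 2) ^ 10) ∧
    -- (3) the lower bound for all polynomials which decide approximately, under the promise of at most one solution, for
    -- one gauge substitution generic on a block of `r` variables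
    (∀ (F A : Type) [Field F] [Fintype A] (v : AbsoluteValue F ℝ) (n r k : ℕ), 2 ≤ Fintype.card A → 200 ≤ r → 2 ≤ k →
      k < r → ∀ (ι : Fin r ↪ Fin n) (t : Finset (Fin r) → Fin r → A → Fˣ) (w s : ℕ)
      (f : MvPolynomial (Fin n → Option A) F), 1 ≤ w → Computes (blockGauge ι t) w s f → GenericFor k f t →
      Decides v k (r.choose k) f → Fintype.card A ^ r ≤ (2 * (w * s) ^ 2) ^ 10) ∧
    -- (4) a stronger bound for the number of gates if there are only quadratic gates, or small matrices
    (∀ (F A : Type) [Field F] [Fintype A] (v : AbsoluteValue F ℝ) (n r k N M a : ℕ), 2 ≤ Fintype.card A → 2 ≤ k →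
      k < r → 3 ≤ M → N + 1 ≤ M → M ^ 2 ≤ r.choose k → (M + 1) * a ^ k ≤ r ^ k →
      ∀ (ι : Fin r ↪ Fin n) (t : Finset (Fin r) → Fin r → A → Fˣ) (w G : ℕ)
      (p : ℕ → MvPolynomial (Fin n → Option A) F) (m : ℕ → ℕ) (f : MvPolynomial (Fin n → Option A) F), 1 ≤ w →
      Circuit (blockGauge ι t) w G p m → (∀ g < G, m g ≤ N) → f ∈ Earlier p G → GenericFor k f t →
      Decides v k (r.choose k) f → Fintype.card A ^ a ≤ w * G) ∧
    -- (5) upper bound: circuits of quadratic gates, equivariant under all gauge substitutions
    (∀ (F A : Type) [Field F] [Fintype A] (n k : ℕ), ∃ (G : ℕ) (p : ℕ → MvPolynomial (Fin n → Option A) F)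
      (f : MvPolynomial (Fin n → Option A) F), G ≤ n.choose k * Fintype.card A ^ n ∧
      (∀ t : Finset (Fin n) → Fin n → A → Fˣ, Circuit (gauge t) 1 G p fun _ => 0) ∧ f ∈ Earlier p G ∧
      (∀ β, f.degreeOf β ≤ 1) ∧
      ∀ Y, value f Y = ((univ.filter fun x : Fin n → A => restrictions k x ⊆ Y).card : F)) ∧
    -- (6) generic gauge substitutions of every level exist over infinite fields
    (∀ (F A : Type) [Field F] [Infinite F] [Fintype A] (n k D : ℕ),
      ∃ t : Finset (Fin n) → Fin n → A → Fˣ, Generic D k t) ∧
    -- (7) one which is generic of all levels exists over the fields of characteristic zero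
    (∀ (F A : Type) [Field F] [CharZero F] [Fintype A] (n k : ℕ),
      ∃ t : Finset (Fin n) → Fin n → A → Fˣ, ∀ D, Generic D k t) := by
  have hlow : ∀ (F A : Type) [Field F] [Fintype A] (n k D : ℕ), 2 ≤ Fintype.card A → 200 ≤ n → 2 ≤ k → k < n →
      ∀ t : Finset (Fin n) → Fin n → A → Fˣ, Generic D k t →
      ∀ (w s R : ℕ) (f : MvPolynomial (Fin n → Option A) F), 1 ≤ w → Computes (gauge t) w s f →
      Many R (fun x : Fin n → A => ∃ u ∈ f.support, u.support = restrictions k x ∧ ∀ β, u β ≤ D) →
      Fintype.card A ^ n ≤ (2 * R * (w * s) ^ 2) ^ 10 := by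
    rintro F A _ _ n k D hA hn hk hkn t ht w _ R f hw ⟨G, p, m, hc, hf, rfl⟩ hR
    obtain ⟨hc', hE⟩ := Pool.Agent.Helper1x.EH.split_circuit (c := Pool.Agent.Helper1x.EG.gu t) hw hc
    have hR' : Many R (fun x : Fin n → A => ∃ u, MvPolynomial.coeff u f ≠ 0 ∧
        u.support = (Pool.Agent.HS38.GT.scopes (Fin n) k).image (fun K => Pool.Agent.HS38.GT.restr K x) ∧
          ∀ β, u β ≤ D) := by
      refine hR.mono fun x hx => ?_
      obtain ⟨u, hu1, hu2, hu3⟩ := hx
      exact ⟨u, MvPolynomial.mem_support_iff.1 hu1, hu2, hu3⟩
    have h1 := Pool.Agent.Helper1x.EH.lowerSG (F := F) (V := Fin n) (A := A) (D := D) (k := k) (t := t)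
      (f := f) (R := R) Pool.Agent.Helper1x.EB.t_WEB Pool.Agent.Helper1x.EB.t_WHB
      (by rw [Fintype.card_fin]; exact hn) hA hk (by rw [Fintype.card_fin]; exact hkn) ht hc' (hE f hf)
      (by
        rw [Fintype.card_fin]
        exact hR'.le _)
    rw [Fintype.card_fin] at h1
    exact h1.trans (Nat.pow_le_pow_left (Nat.mul_le_mul_left _ (Nat.pow_le_pow_left
      (Pool.Agent.Helper1x.EH.split_size hw G m) 2)) 10)
  have hlow2 : ∀ (F A : Type) [Field F] [Fintype A] (v : AbsoluteValue F ℝ) (n k D : ℕ), 2 ≤ Fintype.card A →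
      200 ≤ n → 2 ≤ k → k < n → ∀ t : Finset (Fin n) → Fin n → A → Fˣ, Generic D k t →
      ∀ (w s R : ℕ) (f : MvPolynomial (Fin n → Option A) F), 1 ≤ w → Computes (gauge t) w s f →
      (∀ β, f.degreeOf β ≤ D) → Many R (fun x : Fin n → A => value f (restrictions k x) ≠ 0 ∧
        ∀ Y, Y ⊂ restrictions k x → 2 ^ n.choose k * v (value f Y) ≤ v (value f (restrictions k x))) →
      Fintype.card A ^ n ≤ (2 * R * (w * s) ^ 2) ^ 10 := by
    intro F A _ _ v n k D hA hn hk hkn t ht w s R f hw hf hD hR
    refine hlow F A n k D hA hn hk hkn t ht w s R f hw hf (hR.mono fun x hx => ?_)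
    obtain ⟨h1, h2⟩ := hx
    obtain ⟨u, hu, hu'⟩ := Pool.Agent.Helper1x.EH.mob_abs v f (restrictions k x)
      (by rw [card_restrictions]; exact h2) h1
    exact ⟨u, hu, hu', fun β => (MvPolynomial.monomial_le_degreeOf β hu).trans (hD β)⟩
  have hred : ∀ (F A : Type) [Field F] [Fintype A] (v : AbsoluteValue F ℝ) (n r k : ℕ), 2 ≤ Fintype.card A → 2 ≤ k →
      k < r → ∀ (ι : Fin r ↪ Fin n) (t : Finset (Fin r) → Fin r → A → Fˣ) (w G : ℕ)
      (p : ℕ → MvPolynomial (Fin n → Option A) F) (m : ℕ → ℕ) (f : MvPolynomial (Fin n → Option A) F), 1 ≤ w →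
      Circuit (blockGauge ι t) w G p m → f ∈ Earlier p G → GenericFor k f t → Decides v k (r.choose k) f →
      ∃ (D : ℕ) (p' : ℕ → MvPolynomial (Fin r → Option A) F) (f' : MvPolynomial (Fin r → Option A) F),
        Generic D k t ∧ Pool.Agent.Helper1x.EH.Circuit (gauge t) (G * w) p' (Pool.Agent.Helper1x.EH.mS w m) ∧
        f' ∈ Earlier p' (G * w) ∧
        ∀ x : Fin r → A, ∃ u ∈ f'.support, u.support = restrictions k x ∧ ∀ β, u β ≤ D := by
    rintro F A _ _ v n r k hA hk hkr ι t w G p m f hw hc hf hD ⟨hv0, hv1⟩
    rw [← blockU_val] at hc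
    obtain ⟨hc', hE⟩ := Pool.Agent.Helper1x.EH.split_circuit (c := blockU ι t) hw hc
    obtain ⟨D, ht, hD⟩ : ∃ D, Generic D k t ∧ ∀ β, f.degreeOf β ≤ D := by
      rcases hD with hD | hD
      · exact hD
      · exact ⟨f.totalDegree, hD _, fun β => MvPolynomial.degreeOf_le_totalDegree f β⟩
    have hrn : r ≤ n := by
      have h := Fintype.card_le_of_embedding ι
      rwa [Fintype.card_fin, Fintype.card_fin] at h
    obtain ⟨a0⟩ : Nonempty A := Fintype.card_pos_iff.1 (by omega)
    set ρ := Pool.Agent.Helper1x.EH.rho (A := A) ι with hρ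
    set z := Pool.Agent.Helper1x.EH.zz (n := n) F ι a0 with hz
    set f' := Pool.Agent.Helper1x.EH.subs ρ z f with hf'
    have hval : ∀ Y, value f' Y = value f (Pool.Agent.Helper1x.EH.extS ι a0 Y) := by
      intro Y
      unfold value
      rw [hf', Pool.Agent.Helper1x.EH.eval_subs]
      refine congrArg (fun w => MvPolynomial.eval w f) (funext fun β => ?_)
      exact Pool.Agent.Helper1x.EH.elim_ext ι a0 Y β
    have hdeg : ∀ β, f'.degreeOf β ≤ D := Pool.Agent.Helper1x.EH.degree_subs
      (fun β β' y h h' => Pool.Agent.Helper1x.EH.rho_inj h h') hD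
    refine ⟨D, _, f', ht, Pool.Agent.Helper1x.EH.subs_circuit (ρ := ρ) (z := z) (c' := gauge t)
      (fun β y h => ?_) (fun β h => ?_) hc', Pool.Agent.Helper1x.EH.subs_earlier _ (G * w) (hE f hf), fun x => ?_⟩
    · rw [hρ] at h
      unfold Pool.Agent.Helper1x.EH.rho at h
      by_cases h1 : Pool.Agent.Helper1x.EH.Inside ι β
      · rw [if_pos h1] at h
        have h2 : blockGauge ι t β = gauge t (fun i => β (ι i)) := if_pos h1
        rw [← congrFun (blockU_val ι t) β] at h2
        rw [h2, Option.some.inj h]
      · rw [if_neg h1] at h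
        exact absurd h (by simp)
    · rw [hρ] at h
      unfold Pool.Agent.Helper1x.EH.rho at h
      by_cases h1 : Pool.Agent.Helper1x.EH.Inside ι β
      · rw [if_pos h1] at h
        exact absurd h (by simp)
      · have h2 : blockGauge ι t β = 1 := if_neg h1
        rw [← congrFun (blockU_val ι t) β] at h2
        rw [h2, one_mul]
    · have h2 : 1 ≤ v (value f' (restrictions k x)) := by
        rw [hval]
        exact hv1 _ (Pool.Agent.Helper1x.EH.unique_ext (by omega) (by omega)
          ⟨x, subset_rfl, fun x' hx' => eq_of_subset (by omega) hkr.le hx'⟩)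
      have h5 : value f' (restrictions k x) ≠ 0 := fun h3 => by
        rw [h3, v.map_zero] at h2
        exact absurd h2 (by norm_num)
      have h6 : ∀ Y, Y ⊂ restrictions k x →
          2 ^ r.choose k * v (value f' Y) ≤ v (value f' (restrictions k x)) := by
        intro Y hY
        rw [hval Y]
        refine (hv0 _ fun x' hx' => ?_).trans h2
        have h4 : restrictions k (fun i => x' (ι i)) ⊆ Y := Pool.Agent.Helper1x.EH.sol_block hx'
        have h3 := eq_of_subset (by omega) hkr.le (h4.trans hY.subset)
        rw [h3] at h4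
        exact hY.not_subset h4
      obtain ⟨u, hu, hu'⟩ := Pool.Agent.Helper1x.EH.mob_abs v f' (restrictions k x)
        (by rw [card_restrictions]; exact h6) h5
      exact ⟨u, hu, hu', fun β => (MvPolynomial.monomial_le_degreeOf β hu).trans (hdeg β)⟩
  refine ⟨hlow, hlow2, ?_, ?_, ?_, ?_, ?_⟩
  · rintro F A _ _ v n r k hA hr hk hkr ι t w _ f hw ⟨G, p, m, hc, hf, rfl⟩ hD hv
    obtain ⟨D, p', f', ht, hc', hf', hx⟩ := hred F A v n r k hA hk hkr ι t w G p m f hw hc hf hD hv
    have h1 := hlow F A r k D hA hr hk hkr t ht 1 _ 1 f' le_rfl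
      ⟨G * w, p', _, Pool.Agent.Helper1x.EH.toR hc', hf', rfl⟩ (many_all hx)
    rw [mul_one, one_mul] at h1
    exact h1.trans (Nat.pow_le_pow_left (Nat.mul_le_mul_left _ (Nat.pow_le_pow_left
      (Pool.Agent.Helper1x.EH.split_size hw G m) 2)) 10)
  · intro F A _ _ v n r k N M a hA hk hkr hM hNM hMH ha ι t w G p m f hw hc hm hf hD hv
    obtain ⟨D, p', f', ht, hc', hf', hx⟩ := hred F A v n r k hA hk hkr ι t w G p m f hw hc hf hD hv
    have hR : Many 1 (fun x : Fin r → A => ∃ u, MvPolynomial.coeff u f' ≠ 0 ∧
        u.support = (Pool.Agent.HS38.GT.scopes (Fin r) k).image (fun K => Pool.Agent.HS38.GT.restr K x) ∧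
          ∀ β, u β ≤ D) := by
      refine many_all fun x => ?_
      obtain ⟨u, hu1, hu2, hu3⟩ := hx x
      exact ⟨u, MvPolynomial.mem_support_iff.1 hu1, hu2, hu3⟩
    have hcard : (Pool.Agent.HS38.GT.scopes (Fin r) k).card = r.choose k := by
      rw [Pool.Agent.Helper1x.EG.card_scopes, Fintype.card_fin]
    have h1 := Pool.Agent.Helper1x.EH.lowerSQ (F := F) (V := Fin r) (A := A) (D := D) (k := k) (t := t)
      (f := f') (R := 1) (M := M) (c := a) (N := N) Pool.Agent.Helper1x.EB.t_WEB hA hk
      (by rw [Fintype.card_fin]; exact hkr) hM hNM (by rw [hcard]; exact hMH) (by rw [Fintype.card_fin]; exact ha)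
      ht hc' (Pool.Agent.Helper1x.EH.mS_le hw hm) hf' (by
        rw [Fintype.card_fin]
        exact hR.le _)
    rwa [one_mul, mul_comm] at h1
  · intro F A _ _ n k
    obtain ⟨G, p, h1, h2, h3⟩ := Pool.Agent.Helper1x.EG.t_UPG F (Fin n) A (scopes n k)
    have hcard : (scopes n k).card = n.choose k := by
      rw [scopes, Finset.card_powersetCard, Finset.card_univ, Fintype.card_fin]
    refine ⟨G, p, _, ?_, fun t => Pool.Agent.Helper1x.EH.toR (Pool.Agent.Helper1x.EH.liftC (h2 (gauge t))), h3, ?_,
      fun Y => ?_⟩
    · rw [← hcard]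
      rwa [Fintype.card_fin] at h1
    · intro β
      rw [Pool.Agent.HS38.GT.Z]
      refine (MvPolynomial.degreeOf_sum_le β _ _).trans (Finset.sup_le fun x _ => ?_)
      refine (MvPolynomial.degreeOf_prod_le β _ _).trans ?_
      have h4 : ∀ K : Finset (Fin n), MvPolynomial.degreeOf β (MvPolynomial.X (R := F)
          (Pool.Agent.HS38.GT.restr K x)) = if β = Pool.Agent.HS38.GT.restr K x then 1 else 0 := fun K =>
        MvPolynomial.degreeOf_X _ _
      rw [Finset.sum_congr rfl fun K _ => h4 K, ← Finset.card_filter]
      refine Finset.card_le_one.2 fun K hK K' hK' => ?_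
      exact Pool.Agent.Helper1x.EG.restr_injective x ((mem_filter.1 hK).2.symm.trans (mem_filter.1 hK').2)
    · unfold value Pool.Agent.HS38.GT.Z
      rw [map_sum]
      have h4 : ∀ x : Fin n → A, MvPolynomial.eval (fun β => if β ∈ Y then (1 : F) else 0)
          (∏ K ∈ scopes n k, MvPolynomial.X (Pool.Agent.HS38.GT.restr K x)) =
          if restrictions k x ⊆ Y then 1 else 0 := by
        intro x
        rw [map_prod]
        simp only [MvPolynomial.eval_X]
        split_ifs with h5
        · refine Finset.prod_eq_one fun K hK => ?_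
          exact if_pos (h5 (mem_image_of_mem _ hK))
        · obtain ⟨β, hβ, hY⟩ := Finset.not_subset.1 h5
          obtain ⟨K, hK, rfl⟩ := mem_image.1 hβ
          exact Finset.prod_eq_zero hK (if_neg hY)
      rw [Finset.sum_congr rfl fun x _ => h4 x, Finset.sum_boole]
  · intro F A _ _ _ n k D
    exact Pool.Agent.Helper1x.EB.t_GENB F (Fin n) A D (scopes n k)
  · intro F A _ _ _ n k
    exact Pool.Agent.Helper1x.EB.t_GENI F (Fin n) A (scopes n k)

end Pool.Agent.Results.MP_4ed1f9_lc.GaugeEquivariantCircuits
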